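import Pool.Agent.R978.PM.D

/-!
# Randomly deleted parts, residues modulo `m`: the bound for linear functionals (helper978)
-/

set_option autoImplicit false
set_option linter.unusedSectionVars false

open MeasureTheory ProbabilityTheory Filter Topology

namespace Pool.Agent.R978.PN

open Pool.Agent.R978.PD (tr tr_congr rho)
open Pool.Agent.R978.PM (e e_zero e_add norm_e e_sum e_neg gap lin_bound Tri fn X phase1 w w_nonneg w_le_one Dep)

variable {m : ℕ} [NeZero m] {c : (ℕ → Bool) → ℕ → ZMod m}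
variable {Ω : Type} [MeasurableSpace Ω] {P : Measure Ω} [IsProbabilityMeasure P]
  {ξ : ℕ → Ω → Bool}

theorem phase2 (hm : ∀ a, Measurable (ξ a)) (hi : iIndepFun ξ P) {b : ℕ} (G : ℕ → Prop)
    [DecidablePred G]
    (y F : ℕ → (ℕ → Bool) → ZMod m) {z : ZMod m} (hz : z ≠ 0)
    (hy : ∀ j, 1 ≤ j → ∀ r : ℕ → Bool, y j r = (if r j then -z else 0) + F j r)
    (hF : ∀ j, 1 ≤ j → ∀ r r' : ℕ → Bool, (∀ a ≤ j - 1, r a = r' a) → F j r = F j r')
    {σ τ : ℝ} (h0 : 0 ≤ σ) (h1 : σ ≤ 1 / 2) (t0 : 0 ≤ τ) (t1 : τ ≤ 1) (J : ℕ)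
    (hρ : ∀ a, b < a → a ≤ J → G a → σ ≤ rho P ξ a ∧ rho P ξ a ≤ 1 - σ) :
    ∫ ω, (∏ j ∈ (Finset.Ioc b J).filter G, w τ (y j (fun a => ξ a ω))) ∂P ≤
      (1 - σ * τ) ^ ((Finset.Ioc b J).filter G).card := by
  induction J with
  | zero => simp
  | succ J ih =>
    rcases Nat.lt_or_ge J b with hJ | hJ
    · rw [Finset.Ioc_eq_empty (by omega)]
      simp
    have hIoc : Finset.Ioc b (J + 1) = insert (J + 1) (Finset.Ioc b J) := by
      ext x; simp only [Finset.mem_Ioc, Finset.mem_insert]; omega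
    have hnot : J + 1 ∉ (Finset.Ioc b J).filter G := by
      simp only [Finset.mem_filter, Finset.mem_Ioc]; omega
    by_cases hG : G (J + 1)
    swap
    · rw [hIoc, Finset.filter_insert, if_neg hG]
      exact ih fun a ha ha' hg => hρ a ha (by omega) hg
    have hfil : (Finset.Ioc b (J + 1)).filter G = insert (J + 1) ((Finset.Ioc b J).filter G) := by
      rw [hIoc, Finset.filter_insert, if_pos hG]
    rw [hfil]
    have hyd : ∀ j, 1 ≤ j → PD.Dep j (fun r => w τ (y j r)) := by
      intro j hj r r' H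
      show w τ (y j r) = w τ (y j r')
      rw [hy j hj, hy j hj, H j le_rfl, hF j hj r r' (fun a ha => H a (by omega))]
    have hpr : PD.Dep J (fun r => ∏ j ∈ (Finset.Ioc b J).filter G, w τ (y j r)) :=
      PD.Dep.prod _ fun j hj => by
        rw [Finset.mem_filter, Finset.mem_Ioc] at hj
        exact (hyd j (by omega)).mono hj.1.2
    have hdep : PD.Dep (J + 1) (fun r => (∏ j ∈ (Finset.Ioc b J).filter G, w τ (y j r)) *
        w τ (y (J + 1) r)) :=
      (hpr.mono (by omega)).mul (hyd (J + 1) (by omega))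
    have h2 := PD.resample hm hi hdep (J + 1)
    have e1 : ∀ ω, (∏ j ∈ insert (J + 1) ((Finset.Ioc b J).filter G), w τ (y j (fun a => ξ a ω))) =
        (fun r => (∏ j ∈ (Finset.Ioc b J).filter G, w τ (y j r)) * w τ (y (J + 1) r))
          (fun a => ξ a ω) := by
      intro ω
      rw [Finset.prod_insert hnot, mul_comm]
    rw [integral_congr_ae (Eventually.of_forall e1), h2]
    have hFd : ∀ (r : ℕ → Bool) (t : Bool), F (J + 1) (Function.update r (J + 1) t) = F (J + 1) r :=
      fun r t => hF (J + 1) (by omega) _ _ fun a ha => Function.update_of_ne (by omega) _ _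
    have hle : ∀ ω, (rho P ξ (J + 1) * (fun r => (∏ j ∈ (Finset.Ioc b J).filter G, w τ (y j r)) *
        w τ (y (J + 1) r)) (Function.update (fun a => ξ a ω) (J + 1) true) +
        (1 - rho P ξ (J + 1)) * (fun r => (∏ j ∈ (Finset.Ioc b J).filter G, w τ (y j r)) *
        w τ (y (J + 1) r)) (Function.update (fun a => ξ a ω) (J + 1) false)) ≤
        (1 - σ * τ) * ∏ j ∈ (Finset.Ioc b J).filter G, w τ (y j (fun a => ξ a ω)) := by
      intro ω
      obtain ⟨p1, p2⟩ := hρ (J + 1) (by omega) le_rfl hG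
      simp only
      rw [hpr.upd (by omega), hpr.upd (by omega), hy (J + 1) (by omega), hy (J + 1) (by omega),
        Function.update_self, Function.update_self, hFd, hFd]
      have hp0 : 0 ≤ ∏ j ∈ (Finset.Ioc b J).filter G, w τ (y j (fun a => ξ a ω)) :=
        Finset.prod_nonneg fun j _ => w_nonneg t1 _
      have h3 : rho P ξ (J + 1) * w τ ((if (true : Bool) = true then -z else 0) +
          F (J + 1) (fun a => ξ a ω)) + (1 - rho P ξ (J + 1)) *
          w τ ((if (false : Bool) = true then -z else 0) + F (J + 1) (fun a => ξ a ω)) ≤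
          1 - σ * τ := by
        simp only [if_true, Bool.false_eq_true, if_false, zero_add]
        by_cases hF0 : F (J + 1) (fun a => ξ a ω) = 0
        · rw [hF0, add_zero]
          have hz' : -z ≠ 0 := neg_ne_zero.2 hz
          unfold w
          rw [if_neg hz', if_pos rfl]
          nlinarith
        · have hw : w τ (-z + F (J + 1) (fun a => ξ a ω)) ≤ 1 := w_le_one t0 _
          have hw2 : w τ (F (J + 1) (fun a => ξ a ω)) = 1 - τ := by
            unfold w
            rw [if_neg hF0]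
          rw [hw2]
          nlinarith [mul_le_mul_of_nonneg_left hw (h0.trans p1)]
      calc _ = (∏ j ∈ (Finset.Ioc b J).filter G, w τ (y j (fun a => ξ a ω))) *
            (rho P ξ (J + 1) * w τ ((if (true : Bool) = true then -z else 0) +
          F (J + 1) (fun a => ξ a ω)) + (1 - rho P ξ (J + 1)) *
          w τ ((if (false : Bool) = true then -z else 0) + F (J + 1) (fun a => ξ a ω))) := by ring
        _ ≤ (∏ j ∈ (Finset.Ioc b J).filter G, w τ (y j (fun a => ξ a ω))) * (1 - σ * τ) :=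
            mul_le_mul_of_nonneg_left h3 hp0
        _ = _ := by ring
    have hint : Integrable (fun ω => ∏ j ∈ (Finset.Ioc b J).filter G, w τ (y j (fun a => ξ a ω))) P :=
      hpr.integrable hm
    have h4 := integral_mono
      (((hdep.update (J + 1) true).integrable (P := P) hm |>.const_mul (rho P ξ (J + 1))).add
        ((hdep.update (J + 1) false).integrable (P := P) hm |>.const_mul (1 - rho P ξ (J + 1))))
      (hint.const_mul (1 - σ * τ)) hle
    refine le_trans h4 ?_
    rw [integral_const_mul]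
    have h5 := ih fun a ha ha' hg => hρ a ha (by omega) hg
    have h6 : 0 ≤ 1 - σ * τ := by nlinarith
    calc (1 - σ * τ) * ∫ ω, (∏ j ∈ (Finset.Ioc b J).filter G, w τ (y j (fun a => ξ a ω))) ∂P
        ≤ (1 - σ * τ) * (1 - σ * τ) ^ ((Finset.Ioc b J).filter G).card :=
          mul_le_mul_of_nonneg_left h5 h6
      _ = (1 - σ * τ) ^ (insert (J + 1) ((Finset.Ioc b J).filter G)).card := by
          rw [← pow_succ', Finset.card_insert_of_notMem hnot]

theorem decorr (H : Tri c) (hm : ∀ a, Measurable (ξ a)) (hi : iIndepFun ξ P)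
    {κ : ℝ} (hκ0 : 0 < κ) (hκ1 : κ ≤ 1) (hκ : ∀ x : ZMod m, x ≠ 0 → 2 * κ ≤ 1 - (e x).re)
    (C : ℕ → Prop) [DecidablePred C]
    (v : ℕ → ZMod m) (u : ℕ) (hv : v u ≠ 0) {b : ℕ} {σ : ℝ} (h0 : 0 ≤ σ) (h1 : σ ≤ 1 / 2)
    (hb : b ≤ u / 2) (hρ : ∀ a, b < a → a ≤ u → C a → σ ≤ rho P ξ a ∧ rho P ξ a ≤ 1 - σ) :
    ‖∫ ω, e (fn c v u (fun a => ξ a ω)) ∂P‖ ≤ (1 - κ * σ ^ 2) ^
      ((Finset.Ioc b (u - u / 2 - 1)).filter fun j => C j ∧ C (u - j)).card := by
  set G : ℕ → Prop := fun j => C j ∧ C (u - j) with hG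
  obtain ⟨h, hh⟩ : ∃ h, h = u / 2 := ⟨_, rfl⟩
  rw [← hh] at hb ⊢
  have huh : u ≤ 2 * h + 1 := by omega
  have t0 : 0 ≤ κ * σ := by positivity
  have t1 : κ * σ ≤ 1 := by nlinarith
  -- expansion
  have e1 : ∀ ω, e (fn c v u (fun a => ξ a ω)) = e (fn c v u (tr h (fun a => ξ a ω))) *
      ∏ a ∈ Finset.Ioc h u, (if ξ a ω then e (-X c v u a (tr h (fun a => ξ a ω))) else 1) := by
    intro ω
    rw [H.fn_eq v huh, e_add, e_sum]
    congr 1
    refine Finset.prod_congr rfl fun a _ => ?_
    split_ifs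
    · rfl
    · exact e_zero
  have hgd : ∀ a, Dep h (fun r => e (-X c v u a (tr h r))) := by
    intro a r r' Hr
    show e (-X c v u a (tr h r)) = e (-X c v u a (tr h r'))
    rw [tr_congr Hr]
  have hκd : Dep h (fun r => e (fn c v u (tr h r))) := by
    intro r r' Hr
    show e (fn c v u (tr h r)) = e (fn c v u (tr h r'))
    rw [tr_congr Hr]
  rw [integral_congr_ae (Eventually.of_forall e1)]
  have h2 := phase1 hm hi (fun a r => e (-X c v u a (tr h r))) hgd u (by omega)
    (fun r => e (fn c v u (tr h r))) hκd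
  rw [h2]
  -- the functionals y
  set y : ℕ → (ℕ → Bool) → ZMod m := fun j r => X c v u (u - j) r with hydef
  have hX : ∀ a, h < a → ∀ r, X c v u a (tr h r) = X c v u a r := by
    intro a ha r
    unfold X
    refine Finset.sum_congr rfl fun l hl => ?_
    rw [Finset.mem_Icc] at hl
    rw [← H.low (by omega)]
  -- pointwise bound
  have hpt : ∀ ω, ‖e (fn c v u (tr h (fun a => ξ a ω))) *
      ∏ a ∈ Finset.Ioc h u, ((rho P ξ a : ℂ) * e (-X c v u a (tr h (fun a => ξ a ω))) +
        (1 - (rho P ξ a : ℂ)))‖ ≤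
      ∏ j ∈ (Finset.Ioc b (u - h - 1)).filter G, w (κ * σ) (y j (fun a => ξ a ω)) := by
    intro ω
    rw [norm_mul, norm_e, one_mul, norm_prod]
    have s0 : ∀ a, ‖(rho P ξ a : ℂ) * e (-X c v u a (tr h (fun a => ξ a ω))) +
        (1 - (rho P ξ a : ℂ))‖ ≤ 1 := by
      intro a
      have q0 : 0 ≤ rho P ξ a := PD.rho_nonneg a
      have q1 : rho P ξ a ≤ 1 := PD.rho_le_one a
      refine (norm_add_le _ _).trans ?_
      rw [norm_mul, norm_e, mul_one]
      have h5 : (1 - (rho P ξ a : ℂ)) = ((1 - rho P ξ a : ℝ) : ℂ) := by push_cast; rfl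
      rw [h5, Complex.norm_real, Complex.norm_real, Real.norm_of_nonneg q0,
        Real.norm_of_nonneg (by linarith)]
      linarith
    have hsub : ((Finset.Ioc b (u - h - 1)).filter G).image (fun j => u - j) ⊆ Finset.Ioc h u := by
      intro a ha
      rw [Finset.mem_image] at ha
      obtain ⟨j, hj, rfl⟩ := ha
      rw [Finset.mem_filter, Finset.mem_Ioc] at hj
      rw [Finset.mem_Ioc]
      omega
    rw [← Finset.prod_sdiff hsub]
    have s2 := Finset.prod_le_one (s := Finset.Ioc h u \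
        ((Finset.Ioc b (u - h - 1)).filter G).image (fun j => u - j))
      (f := fun a => ‖(rho P ξ a : ℂ) * e (-X c v u a (tr h (fun a => ξ a ω))) +
        (1 - (rho P ξ a : ℂ))‖) (fun a _ => norm_nonneg _) (fun a _ => s0 a)
    have s3 : ∏ a ∈ ((Finset.Ioc b (u - h - 1)).filter G).image (fun j => u - j),
        ‖(rho P ξ a : ℂ) * e (-X c v u a (tr h (fun a => ξ a ω))) + (1 - (rho P ξ a : ℂ))‖ ≤
        ∏ j ∈ (Finset.Ioc b (u - h - 1)).filter G, w (κ * σ) (y j (fun a => ξ a ω)) := by
      rw [Finset.prod_image]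
      swap
      · intro i hi j hj hij
        simp only [Finset.coe_filter, Finset.mem_Ioc, Set.mem_setOf_eq] at hi hj
        simp only at hij
        omega
      refine Finset.prod_le_prod (fun a _ => norm_nonneg _) fun j hj => ?_
      rw [Finset.mem_filter, Finset.mem_Ioc] at hj
      obtain ⟨⟨hj1, hj2⟩, hj3, hj4⟩ := hj
      rw [hX (u - j) (by omega)]
      obtain ⟨p1, p2⟩ := hρ (u - j) (by omega) (by omega) hj4
      show ‖(rho P ξ (u - j) : ℂ) * e (-X c v u (u - j) (fun a => ξ a ω)) +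
        (1 - (rho P ξ (u - j) : ℂ))‖ ≤ w (κ * σ) (X c v u (u - j) (fun a => ξ a ω))
      by_cases hz : X c v u (u - j) (fun a => ξ a ω) = 0
      · rw [hz, neg_zero, e_zero]
        unfold w
        rw [if_pos rfl, show (rho P ξ (u - j) : ℂ) * 1 + (1 - (rho P ξ (u - j) : ℂ)) = 1 by ring,
          norm_one]
      · have hz' : -X c v u (u - j) (fun a => ξ a ω) ≠ 0 := neg_ne_zero.2 hz
        have h3 := lin_bound (norm_e (-X c v u (u - j) (fun a => ξ a ω))) hκ0.le hκ1 (hκ _ hz')
          h0 h1 p1 p2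
        unfold w
        rw [if_neg hz]
        exact h3
    calc _ ≤ 1 * ∏ a ∈ ((Finset.Ioc b (u - h - 1)).filter G).image (fun j => u - j),
        ‖(rho P ξ a : ℂ) * e (-X c v u a (tr h (fun a => ξ a ω))) + (1 - (rho P ξ a : ℂ))‖ :=
          mul_le_mul_of_nonneg_right s2 (Finset.prod_nonneg fun a _ => norm_nonneg _)
      _ ≤ _ := by rw [one_mul]; exact s3
  have hyF : ∀ j, 1 ≤ j → j ≤ u → ∀ r : ℕ → Bool, y j r = (if r j then -v u else 0) +
      (v u * c (tr (j - 1) r) j + ∑ l ∈ Finset.Ico (u - j) u, v l * c r (l - (u - j))) := by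
    intro j hj hju r
    show ∑ l ∈ Finset.Icc (u - j) u, v l * c r (l - (u - j)) = _
    rw [← Finset.Ico_insert_right (show u - j ≤ u by omega), Finset.sum_insert (by simp),
      show u - (u - j) = j by omega, H.top hj]
    split_ifs <;> ring
  -- apply phase 2 with a truncated family
  set y' : ℕ → (ℕ → Bool) → ZMod m := fun j r => if j ≤ u then y j r else
    (if r j then -v u else 0) with hy'
  set F : ℕ → (ℕ → Bool) → ZMod m := fun j r => if j ≤ u then
    (v u * c (tr (j - 1) r) j + ∑ l ∈ Finset.Ico (u - j) u, v l * c r (l - (u - j))) else 0 with hFdef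
  have p2 := phase2 (P := P) hm hi (b := b) G y' F hv
    (by
      intro j hj r
      simp only [hy', hFdef]
      by_cases hju : j ≤ u
      · rw [if_pos hju, if_pos hju, hyF j hj hju]
      · rw [if_neg hju, if_neg hju, add_zero])
    (by
      intro j hj r r' Hr
      simp only [hFdef]
      by_cases hju : j ≤ u
      · rw [if_pos hju, if_pos hju, tr_congr Hr]
        congr 1
        refine Finset.sum_congr rfl fun l hl => ?_
        rw [Finset.mem_Ico] at hl
        rw [H.dep (r := r) (r' := r') (n := l - (u - j)) (fun a ha => Hr a (by omega))]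
      · rw [if_neg hju, if_neg hju])
    h0 h1 t0 t1 (u - h - 1) (fun a ha ha' hg => hρ a ha (by omega) hg.1)
  rw [show σ * (κ * σ) = κ * σ ^ 2 by ring] at p2
  have e3 : ∀ ω, ∏ j ∈ (Finset.Ioc b (u - h - 1)).filter G, w (κ * σ) (y' j (fun a => ξ a ω)) =
      ∏ j ∈ (Finset.Ioc b (u - h - 1)).filter G, w (κ * σ) (y j (fun a => ξ a ω)) := by
    intro ω
    refine Finset.prod_congr rfl fun j hj => ?_
    rw [Finset.mem_filter, Finset.mem_Ioc] at hj
    simp only [hy']
    rw [if_pos (by omega)]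
  rw [integral_congr_ae (Eventually.of_forall e3)] at p2
  refine le_trans (norm_integral_le_integral_norm _) (le_trans ?_ p2)
  refine integral_mono_of_nonneg (Eventually.of_forall fun ω => norm_nonneg _) ?_
    (Eventually.of_forall hpt)
  have hdy : PD.Dep u (fun r => ∏ j ∈ (Finset.Ioc b (u - h - 1)).filter G, w (κ * σ) (y j r)) :=
    PD.Dep.prod _ fun j hj r r' Hr => by
      show w (κ * σ) (y j r) = w (κ * σ) (y j r')
      simp only [hydef, X]
      congr 1
      refine Finset.sum_congr rfl fun l hl => ?_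
      rw [Finset.mem_Icc] at hl
      rw [H.dep (r := r) (r' := r') (n := l - (u - j)) (fun a ha => Hr a (by omega))]
  exact hdy.integrable hm

end Pool.Agent.R978.PN
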