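import Pool.Agent.R978.PN.C

/-!
# Partitions without parts from a residue class, with randomly deleted parts, modulo `m` (helper978)
-/

set_option autoImplicit false
set_option linter.unusedSectionVars false

open MeasureTheory ProbabilityTheory Filter Topology

namespace Pool.Agent.R978.PN

open Pool.Agent.R978.PD (tr rho av avoiding avoiding_eq ind ind_iff)
open Pool.Agent.R978.PM (cB tri_cB cB_one)

theorem good_class (l c : ℕ) (hl : 3 ≤ l) : Good (fun a => a % l ≠ c % l) := by
  intro u x hx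
  haveI : NeZero l := ⟨by omega⟩
  have key : ∀ a : ℕ, a % l ≠ c % l ↔ (a : ZMod l) ≠ (c : ZMod l) := by
    intro a
    rw [Ne, Ne, ZMod.natCast_eq_natCast_iff']
  simp only [key]
  have one_ne : (1 : ZMod l) ≠ 0 := by
    intro h
    have h1 : ((1 : ℕ) : ZMod l) = 0 := by exact_mod_cast h
    rw [ZMod.natCast_eq_zero_iff] at h1
    have := Nat.le_of_dvd one_pos h1
    omega
  have two_ne : (2 : ZMod l) ≠ 0 := by
    intro h
    have h1 : ((2 : ℕ) : ZMod l) = 0 := by exact_mod_cast h
    rw [ZMod.natCast_eq_zero_iff] at h1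
    have := Nat.le_of_dvd two_pos h1
    omega
  by_contra hcon
  push Not at hcon
  have q0 := hcon x le_rfl (by omega)
  have q1 := hcon (x + 1) (by omega) (by omega)
  have q2 := hcon (x + 2) (by omega) (by omega)
  rw [Nat.cast_sub (by omega)] at q0 q1 q2
  push_cast at q0 q1 q2
  by_cases a0 : (x : ZMod l) = c
  · have a1 : (x : ZMod l) + 1 ≠ c := by
      rw [a0]
      intro h
      exact one_ne (by linear_combination h)
    have a2 : (x : ZMod l) + 2 ≠ c := by
      rw [a0]
      intro h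
      exact two_ne (by linear_combination h)
    have r1 := q1 a1
    have r2 := q2 a2
    exact one_ne (by linear_combination r1 - r2)
  · have r0 := q0 a0
    have a1 : (x : ZMod l) + 1 = c := by
      by_contra h
      have r1 := q1 h
      exact one_ne (by linear_combination r0 - r1)
    have a2 : (x : ZMod l) + 2 = c := by
      by_contra h
      have r2 := q2 h
      exact two_ne (by linear_combination r0 - r2)
    exact one_ne (by linear_combination a2 - a1)

variable {Ω : Type} [MeasurableSpace Ω] {P : Measure Ω} [IsProbabilityMeasure P]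

theorem main1 (l c : ℕ) (hl : 3 ≤ l) (m : ℕ) [NeZero m] (R : Ω → Set ℕ)
    (hm : ∀ a : ℕ, MeasurableSet {ω | a ∈ R ω})
    (hi : iIndepSet (fun a : ℕ => {ω | a ∈ R ω}) P)
    (hR : ∀ K : ℝ, ∀ᶠ a : ℕ in atTop, a % l ≠ c % l → K * √(Real.log a / a) ≤ P.real {ω | a ∈ R ω} ∧
      P.real {ω | a ∈ R ω} ≤ 1 - K * √(Real.log a / a))
    {s : ℕ → ℕ} (hs : StrictMono s) :
    ∀ᵐ ω ∂P, ∀ (L : ℕ) (w : Fin L → ZMod m),
      Tendsto (fun x : ℕ => (((Finset.range x).filter fun k => ∀ i : Fin L,
        (avoiding (R ω ∪ {a | a % l = c % l}) (s k + i) : ZMod m) = w i).card : ℝ) / x) atTop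
        (𝓝 ((1 / m) ^ L)) := by
  classical
  set ξ : ℕ → Ω → Bool := fun a ω => ind (R ω ∪ {a | a % l = c % l}) a with hξ
  have hset : ∀ a : ℕ, a % l ≠ c % l → {ω | ξ a ω = true} = {ω | a ∈ R ω} := by
    intro a ha
    ext ω
    simp only [hξ, Set.mem_setOf_eq, ind_iff, Set.mem_union]
    tauto
  have hset2 : ∀ a : ℕ, a % l = c % l → {ω | ξ a ω = true} = Set.univ := by
    intro a ha
    ext ω
    simp only [hξ, Set.mem_setOf_eq, ind_iff, Set.mem_union, Set.mem_univ, iff_true]
    exact Or.inr ha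
  have hm' : ∀ a : ℕ, Measurable (ξ a) := by
    intro a
    refine measurable_to_bool ?_
    have h0 : ξ a ⁻¹' {true} = {ω | ξ a ω = true} := rfl
    rw [h0]
    by_cases ha : a % l = c % l
    · rw [hset2 a ha]; exact MeasurableSet.univ
    · rw [hset a ha]; exact hm a
  have hi' : iIndepFun ξ P := by
    have h1 := hi.iIndepFun_indicator (β := ℕ) (m := ⊤)
    have h2 := h1.comp (fun a (x : ℕ) => if a % l = c % l then true else decide (x = 1))
      (fun _ => measurable_from_top)
    refine h2.congr fun a => ?_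
    refine Eventually.of_forall fun ω => ?_
    by_cases ha : a % l = c % l
    · simp [hξ, ind, ha]
    · by_cases h : a ∈ R ω
      · simp [hξ, ind, h, ha, Set.indicator]
      · simp [hξ, ind, h, ha, Set.indicator]
  have hsp : ∀ K : ℝ, ∃ b : ℕ, Spread P ξ (fun a => a % l ≠ c % l) K b := by
    intro K
    obtain ⟨b, hb⟩ := eventually_atTop.1 (hR K)
    refine ⟨b, fun a ha hca => ?_⟩
    have h3 := hb a ha.le hca
    unfold rho
    rw [hset a hca]
    exact h3
  have h4 := freq (m := m) (tri_cB (B := 1)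
    (by rw [PowerSeries.coeff_zero_eq_constantCoeff_apply, map_one])) hm' hi'
    (good_class l c hl) hsp hs
  filter_upwards [h4] with ω hω L w
  refine (hω L w).congr fun x => ?_
  congr 2
  refine congrArg Finset.card (Finset.filter_congr fun k _ => forall_congr' fun i => ?_)
  have h5 : (fun a => ξ a ω) = ind (R ω ∪ {a | a % l = c % l}) := rfl
  rw [h5, cB_one]

/-- the number of partitions of `n` with no part congruent to `c` modulo `l` and no part in `R` -/
noncomputable def pcl (l c : ℕ) (R : Set ℕ) (n : ℕ) : ℕ :=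
  Nat.card {p : Nat.Partition n // ∀ a ∈ p.parts, a % l ≠ c % l ∧ a ∉ R}

theorem pcl_eq (l c : ℕ) (R : Set ℕ) (n : ℕ) :
    pcl l c R n = avoiding (R ∪ {a | a % l = c % l}) n := by
  unfold pcl avoiding
  congr! 4
  simp only [Set.mem_union, Set.mem_setOf_eq, not_or]
  tauto

theorem main (l c : ℕ) (hl : 3 ≤ l) (R : Ω → Set ℕ)
    (hm : ∀ a : ℕ, MeasurableSet {ω | a ∈ R ω})
    (hi : iIndepSet (fun a : ℕ => {ω | a ∈ R ω}) P)
    (hR : ∀ K : ℝ, ∀ᶠ a : ℕ in atTop, a % l ≠ c % l → K * √(Real.log a / a) ≤ P.real {ω | a ∈ R ω} ∧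
      P.real {ω | a ∈ R ω} ≤ 1 - K * √(Real.log a / a))
    {s : ℕ → ℕ} (hs : StrictMono s) :
    ∀ᵐ ω ∂P, ∀ m : ℕ, 1 ≤ m → ∀ (L : ℕ) (w : Fin L → ZMod m),
      Tendsto (fun x : ℕ => (((Finset.range x).filter fun k => ∀ i : Fin L,
        (pcl l c (R ω) (s k + i) : ZMod m) = w i).card : ℝ) / x) atTop
        (𝓝 ((1 / (m : ℝ)) ^ L)) := by
  rw [ae_all_iff]
  intro m
  by_cases hm1 : 1 ≤ m
  · haveI : NeZero m := ⟨by omega⟩
    filter_upwards [main1 l c hl m R hm hi hR hs] with ω hω _ L w
    refine (hω L w).congr fun x => ?_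
    congr 2
    refine congrArg Finset.card (Finset.filter_congr fun k _ => forall_congr' fun i => ?_)
    rw [pcl_eq]
  · exact Eventually.of_forall fun ω h => absurd h hm1

end Pool.Agent.R978.PN
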